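import Pool.Agent.X178.Areas.Bodies
import Pool.Agent.X178.Areas.Eigen

/-!
# Coordinate-plane projection areas of convex bodies in `ℝ⁵`: the eigenvalue condition on
# `4 × 4` principal submatrices is not sufficient

`q_ij = 1` if `i, j` are cyclically adjacent in `ℤ/5`, `q_ij = 13/5` otherwise.
-/

open MeasureTheory Set

namespace Pool.Agent.Results.MP_2d1483_gt.PentagonAreas

/-- The matrix `A` has at most one positive eigenvalue, counted with multiplicity. -/
def AtMostOnePositiveEigenvalue (A : Matrix (Fin 4) (Fin 4) ℝ) : Prop :=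
  Multiset.card (A.charpoly.roots.filter (fun t => 0 < t)) ≤ 1

/-- Some convex body (nonempty compact convex set) `K` in `ℝ⁵` has coordinate-plane projection
areas `q i j`, `i < j`. -/
def Realizable (q : Matrix (Fin 5) (Fin 5) ℝ) : Prop :=
  ∃ K : Set (Fin 5 → ℝ), K.Nonempty ∧ IsCompact K ∧ Convex ℝ K ∧
    ∀ i j : Fin 5, i < j →
      volume ((fun x : Fin 5 → ℝ => (x i, x j)) '' K) = ENNReal.ofReal (q i j)

/-- The assertion of Q1: a symmetric nonnegative matrix with zero diagonal, all of whose `4 × 4`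
principal submatrices (row and column `m` deleted) have at most one positive eigenvalue, is
realizable. -/
def Assertion : Prop :=
  ∀ q : Matrix (Fin 5) (Fin 5) ℝ, q.IsSymm → (∀ i, q i i = 0) → (∀ i j, 0 ≤ q i j) →
    (∀ m : Fin 5, AtMostOnePositiveEigenvalue (q.submatrix m.succAbove m.succAbove)) →
    Realizable q

/-- the counterexample -/
noncomputable def pent : Matrix (Fin 5) (Fin 5) ℝ :=
  !![0, 1, 13/5, 13/5, 1;
     1, 0, 1, 13/5, 13/5;
     13/5, 1, 0, 1, 13/5;
     13/5, 13/5, 1, 0, 1;
     1, 13/5, 13/5, 1, 0]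

lemma pent_symm : pent.IsSymm := by
  ext i j
  fin_cases i <;> fin_cases j <;> simp [pent]

lemma pent_diag (i : Fin 5) : pent i i = 0 := by
  fin_cases i <;> simp [pent]

lemma pent_nonneg (i j : Fin 5) : 0 ≤ pent i j := by
  fin_cases i <;> fin_cases j <;> simp [pent] <;> norm_num

lemma pent_sub (m : Fin 5) :
    AtMostOnePositiveEigenvalue (pent.submatrix m.succAbove m.succAbove) := by
  have h := fun (a b c d e f : ℝ) (ha : 0 ≤ a) (hb : 0 ≤ b) (hc : 0 ≤ c) (hd : 0 ≤ d)
    (he : 0 ≤ e) (hf : 0 ≤ f) hdet =>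
      X178.Areas.atMostOne_four (a := a) (b := b) (c := c) (d := d) (e := e) (f := f)
        ha hb hc hd he hf hdet
  fin_cases m
  · have e : pent.submatrix (Fin.succAbove 0) (Fin.succAbove 0) =
        !![0, 1, 13/5, 13/5; 1, 0, 1, 13/5; 13/5, 1, 0, 1; 13/5, 13/5, 1, 0] := by
      ext i j; fin_cases i <;> fin_cases j <;> rfl
    show AtMostOnePositiveEigenvalue (pent.submatrix (Fin.succAbove 0) (Fin.succAbove 0))
    rw [e]
    exact h 1 (13/5) (13/5) 1 (13/5) 1 (by norm_num) (by norm_num) (by norm_num) (by norm_num)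
      (by norm_num) (by norm_num) (by norm_num)
  · have e : pent.submatrix (Fin.succAbove 1) (Fin.succAbove 1) =
        !![0, 13/5, 13/5, 1; 13/5, 0, 1, 13/5; 13/5, 1, 0, 1; 1, 13/5, 1, 0] := by
      ext i j; fin_cases i <;> fin_cases j <;> rfl
    show AtMostOnePositiveEigenvalue (pent.submatrix (Fin.succAbove 1) (Fin.succAbove 1))
    rw [e]
    exact h (13/5) (13/5) 1 1 (13/5) 1 (by norm_num) (by norm_num) (by norm_num) (by norm_num)
      (by norm_num) (by norm_num) (by norm_num)
  · have e : pent.submatrix (Fin.succAbove 2) (Fin.succAbove 2) =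
        !![0, 1, 13/5, 1; 1, 0, 13/5, 13/5; 13/5, 13/5, 0, 1; 1, 13/5, 1, 0] := by
      ext i j; fin_cases i <;> fin_cases j <;> rfl
    show AtMostOnePositiveEigenvalue (pent.submatrix (Fin.succAbove 2) (Fin.succAbove 2))
    rw [e]
    exact h 1 (13/5) 1 (13/5) (13/5) 1 (by norm_num) (by norm_num) (by norm_num) (by norm_num)
      (by norm_num) (by norm_num) (by norm_num)
  · have e : pent.submatrix (Fin.succAbove 3) (Fin.succAbove 3) =
        !![0, 1, 13/5, 1; 1, 0, 1, 13/5; 13/5, 1, 0, 13/5; 1, 13/5, 13/5, 0] := by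
      ext i j; fin_cases i <;> fin_cases j <;> rfl
    show AtMostOnePositiveEigenvalue (pent.submatrix (Fin.succAbove 3) (Fin.succAbove 3))
    rw [e]
    exact h 1 (13/5) 1 1 (13/5) (13/5) (by norm_num) (by norm_num) (by norm_num) (by norm_num)
      (by norm_num) (by norm_num) (by norm_num)
  · have e : pent.submatrix (Fin.succAbove 4) (Fin.succAbove 4) =
        !![0, 1, 13/5, 13/5; 1, 0, 1, 13/5; 13/5, 1, 0, 1; 13/5, 13/5, 1, 0] := by
      ext i j; fin_cases i <;> fin_cases j <;> rfl
    show AtMostOnePositiveEigenvalue (pent.submatrix (Fin.succAbove 4) (Fin.succAbove 4))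
    rw [e]
    exact h 1 (13/5) (13/5) 1 (13/5) 1 (by norm_num) (by norm_num) (by norm_num) (by norm_num)
      (by norm_num) (by norm_num) (by norm_num)

lemma pent_not_realizable : ¬ Realizable pent := by
  rintro ⟨K, hne, hc, hconv, hK⟩
  have hb : X178.Areas.Body K := ⟨hne, hc, hconv⟩
  have harea : ∀ i j : Fin 5, i < j → X178.Areas.area K i j = pent i j := by
    intro i j hij
    have := hK i j hij
    show (volume ((fun x : Fin 5 → ℝ => (x i, x j)) '' K)).toReal = pent i j
    rw [this, ENNReal.toReal_ofReal (pent_nonneg i j)]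
  have hsw := fun i j => X178.Areas.area_swap K hb i j
  have a01 : X178.Areas.area K 0 1 = 1 := by rw [harea 0 1 (by decide)]; rfl
  have a12 : X178.Areas.area K 1 2 = 1 := by rw [harea 1 2 (by decide)]; rfl
  have a23 : X178.Areas.area K 2 3 = 1 := by rw [harea 2 3 (by decide)]; rfl
  have a34 : X178.Areas.area K 3 4 = 1 := by rw [harea 3 4 (by decide)]; rfl
  have a04 : X178.Areas.area K 0 4 = 1 := by rw [harea 0 4 (by decide)]; rfl
  have a02 : X178.Areas.area K 0 2 = 13/5 := by rw [harea 0 2 (by decide)]; rfl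
  have a13 : X178.Areas.area K 1 3 = 13/5 := by rw [harea 1 3 (by decide)]; rfl
  have a24 : X178.Areas.area K 2 4 = 13/5 := by rw [harea 2 4 (by decide)]; rfl
  have a03 : X178.Areas.area K 0 3 = 13/5 := by rw [harea 0 3 (by decide)]; rfl
  have a14 : X178.Areas.area K 1 4 = 13/5 := by rw [harea 1 4 (by decide)]; rfl
  have i1 := X178.Areas.width_ineq hb 0 2 1
  have i2 := X178.Areas.width_ineq hb 1 3 2
  have i3 := X178.Areas.width_ineq hb 2 4 3
  have i4 := X178.Areas.width_ineq hb 0 3 4
  have i0 := X178.Areas.width_ineq hb 1 4 0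
  rw [a02, a01, hsw 2 1, a12] at i1
  rw [a13, a12, hsw 3 2, a23] at i2
  rw [a24, a23, hsw 4 3, a34] at i3
  rw [a03, a04, a34] at i4
  rw [a14, hsw 1 0, a01, hsw 4 0, a04] at i0
  have w0 := hb.width_nonneg 0
  have w1 := hb.width_nonneg 1
  have w2 := hb.width_nonneg 2
  have w3 := hb.width_nonneg 3
  have w4 := hb.width_nonneg 4
  have hpos : 0 < X178.Areas.width K 0 := by
    rcases w0.eq_or_lt with h | h
    · have := hb.area_zero 1 h.symm
      rw [a01] at this
      norm_num at this
    · exact h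
  linarith

/-- **Q1 is false**, and the reason: the width inequality
`w_k a_ij ≤ 1.29 (w_j a_ik + w_i a_jk)` between the widths `w` in coordinate directions and the
areas `a` of coordinate-plane projections of a convex body, in every dimension. -/
theorem result :
    ¬ Assertion ∧
    ∀ (n : ℕ) (K : Set (Fin n → ℝ)), K.Nonempty → IsCompact K → Convex ℝ K →
      ∀ (w : Fin n → ℝ) (a : Fin n → Fin n → ℝ),
        (∀ i, w i = sSup ((fun x : Fin n → ℝ => x i) '' K) -
          sInf ((fun x : Fin n → ℝ => x i) '' K)) →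
        (∀ i j, a i j = volume.real ((fun x : Fin n → ℝ => (x i, x j)) '' K)) →
        ∀ i j k, w k * a i j ≤ (129 / 100) * (w j * a i k + w i * a j k) := by
  refine ⟨fun h => pent_not_realizable
    (h pent pent_symm pent_diag pent_nonneg pent_sub), ?_⟩
  intro n K hne hc hconv w a hw ha i j k
  have := X178.Areas.width_ineq (K := K) ⟨hne, hc, hconv⟩ i j k
  rw [hw k, hw j, hw i, ha i j, ha i k, ha j k]
  exact this

end Pool.Agent.Results.MP_2d1483_gt.PentagonAreas
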